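import Pool.Agent.Q99.FW.Fin2
import Pool.Agent.Q191.TB.Tor
import Pool.Agent.Q191.TW.Out
import Pool.Agent.W591.QAT.Reid
import Pool.Agent.W709.QAT.Fin
import Pool.Agent.H105R3.JSanCurl
import Pool.Agent.H309R4.Jones.SanU
import Pool.Agent.H550R3.Jones.SanSkein699

/-!
# The volume conjecture for the fully augmented square weaves on the torus

Let `A ∪ B` be the Hopf link.  Its complement is a thickened torus, so a link `L` in the complement
of `A ∪ B` has a diagram on the torus.  Cut the torus along a circle around `B`: an annulus, which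
is read from bottom to top.  It is composed of cups, caps and twist regions (on neighbouring strands)
and of rotations, in which a strand moves across a fixed arc from the bottom to the top of the
annulus: if the strands are numbered from that arc, the first strand becomes the last one
(`around true`), or the last one becomes the first one (`around false`).  The top and the bottom of
the annulus are then connected by `n` parallel strands.  Every link in the complement of `A ∪ B` has
such a description, and the rotations are not crossings of the diagram on the torus.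

In the plane `B` is a further strand, on the left, and a rotation is the braid in which the first
strand of `L` passes around `B` and then in front of (or behind) all other strands to the last place.
`A` is a further strand, on the left of `B`, which runs once around `B` and the `n` strands of `L`.
`link n D` is this diagram of `A ∪ B ∪ L`, cut open on `A`, `B` and the `n` strands of `L`; the link
is the closure, and it is cut open at a point of `A`.

The links of this file: `weave s l r σ m` (`s, l, r ≥ 0`) has `2 s + 2` strands and `l + 1` rows.  A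
row consists of `s + 1` encircled twist regions: an unknotted circle around the strands
`(2 k, 2 k + 1)`, which is a component of the link, and `m j k ≥ 0` crossings of these two strands,
positive or negative (`σ j k`); `0 ≤ k ≤ s`, `0 ≤ j ≤ l`.  Below each row there is one rotation, so
the regions of neighbouring rows are shifted by one place, as in a brick wall; at the bottom there
are `2 r` further rotations in the other direction.  These are, together with `A` and `B`, the fully
augmented links of the finite quotients of the infinite square weave (every quotient arises, up to a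
homeomorphism of the torus), with any numbers of half twists in the circles; there are
`(s + 1) (l + 1)` circles.  For `s = l = 0` the volume below is `10 v_3`, the volume of the minimally
twisted five-chain link.

By A. Kwon (Fully augmented links in the thickened torus) the complement of the fully augmented
square weave is hyperbolic and its volume is `10 v_3` for each circle, `v_3 = 1.01494…` the volume of
the regular ideal tetrahedron: the largest possible volume per circle by I. Agol and D. Thurston.
Half twists in a circle do not change the volume (C. Adams).  The theorem below is the volume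
conjecture for all these links, with the precise asymptotic behaviour
`|⟨W⟩_N| ~ c N^{3/2} exp (N Vol / 2 π)`, `c > 0`, `Vol = 10 v_3 (s + 1) (l + 1)`.

The invariants are defined from the R-matrix of `U_q(sl_2)`, with `v = q^{1/2}` and
`{k} = v^k - v^{-k}`.  The Kashaev invariant is the value at `v = exp (π i / N)`, that is
`q = exp (2 π i / N)`; changes of the framing and of the orientations multiply it by a number of
absolute value `1`.
-/

set_option autoImplicit false

namespace Pool.Agent.Q99.Old.AugmentedWeaves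

open Finset Filter Topology

/-! ### The operators of diagrams in the plane -/

/-- `{n} = v^n - v^{-n}` -/
noncomputable def br (v : ℂ) (n : ℤ) : ℂ := v ^ n - v ^ (-n)

/-- `{n}! = {1} {2} ⋯ {n}` -/
noncomputable def brf (v : ℂ) (n : ℕ) : ℂ := ∏ j ∈ range n, br v ((j : ℤ) + 1)

/-- The positive crossing: the R-matrix of `U_q(sl_2)` on `V_N ⊗ V_N`, `V_N` with basis
`e_0, …, e_{N-1}`, times the framing factor `v^{-(N^2-1)/2}`; `crossP N v p q` is the coefficient
of `e_{p.1} ⊗ e_{p.2}` in the image of `e_{q.1} ⊗ e_{q.2}`: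
`e_i ⊗ e_j ↦ ∑_n v^{-(N-1)(1+i+j) + 2(i-n)(j+n) + n(n-1)/2}
({j+n}! / ({j}! {n}!)) ∏_{t<n} {N-i+t} e_{j+n} ⊗ e_{i-n}`. -/
noncomputable def crossP (N : ℕ) (v : ℂ) : Matrix (Fin N × Fin N) (Fin N × Fin N) ℂ :=
  fun p q => if (p.1 : ℕ) + p.2 = q.1 + q.2 ∧ (q.2 : ℕ) ≤ p.1 then
    v ^ (-((N : ℤ) - 1) * (1 + (q.1 : ℕ) + (q.2 : ℕ)) + 2 * (p.1 : ℕ) * (p.2 : ℕ)) *
      v ^ (((p.1 : ℕ) - q.2) * ((p.1 : ℕ) - q.2 - 1) / 2) *
      (brf v p.1 / (brf v q.2 * brf v ((p.1 : ℕ) - q.2))) *
      ∏ t ∈ range ((p.1 : ℕ) - q.2), br v ((N : ℤ) - (q.1 : ℕ) + t)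
    else 0

/-- The negative crossing, inverse of `crossP N v`:
`e_i ⊗ e_j ↦ ∑_n (-1)^n v^{(N-1)(1+i+j) - 2ij - n(n-1)/2}
({i+n}! / ({i}! {n}!)) ∏_{t<n} {N-j+t} e_{j-n} ⊗ e_{i+n}`. -/
noncomputable def crossN (N : ℕ) (v : ℂ) : Matrix (Fin N × Fin N) (Fin N × Fin N) ℂ :=
  fun p q => if (p.1 : ℕ) + p.2 = q.1 + q.2 ∧ (q.1 : ℕ) ≤ p.2 then
    (-1) ^ ((p.2 : ℕ) - q.1) *
      v ^ (((N : ℤ) - 1) * (1 + (q.1 : ℕ) + (q.2 : ℕ)) - 2 * (q.1 : ℕ) * (q.2 : ℕ)) /
      v ^ (((p.2 : ℕ) - q.1) * ((p.2 : ℕ) - q.1 - 1) / 2) *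
      (brf v p.2 / (brf v q.1 * brf v ((p.2 : ℕ) - q.1))) *
      ∏ t ∈ range ((p.2 : ℕ) - q.1), br v ((N : ℤ) - (q.2 : ℕ) + t)
    else 0

/-- The coefficients of the invariant vector `∑_k kap k e_k ⊗ e_{N-1-k}` of `V_N ⊗ V_N`:
`kap k = (-1)^k v^{k(N-2-k)} {k}! {N-1-k}! / {N-1}!`. -/
noncomputable def kap (N : ℕ) (v : ℂ) (k : ℕ) : ℂ :=
  (-1) ^ k * v ^ ((k : ℤ) * ((N : ℤ) - 2 - k)) * (brf v k * brf v (N - 1 - k) / brf v (N - 1))

/-- The cup: the invariant vector of `V_N ⊗ V_N`. -/
noncomputable def cup (N : ℕ) (v : ℂ) (p : Fin N × Fin N) : ℂ :=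
  if (p.1 : ℕ) + p.2 = N - 1 then kap N v p.1 else 0

/-- The cap: the invariant linear form on `V_N ⊗ V_N`. -/
noncomputable def cap (N : ℕ) (v : ℂ) (p : Fin N × Fin N) : ℂ :=
  if (p.1 : ℕ) + p.2 = N - 1 then (kap N v p.2)⁻¹ else 0

/-- The elementary parts of a diagram in the plane.  Strands are counted from `0`, from left to
right.  `cup i` creates the strands `i` and `i + 1`, `cap i` closes the strands `i` and `i + 1`,
`twist i σ m` is a vertical twist region of `m` crossings of the strands `i` and `i + 1`, all of the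
same sign (for `σ = true` as `crossP`, for `σ = false` as `crossN`). -/
inductive Elem
  | cup (i : ℕ)
  | cap (i : ℕ)
  | twist (i : ℕ) (σ : Bool) (m : ℕ)

/-- The operator of an elementary part.  A vector of `V_N ⊗ ⋯ ⊗ V_N` is given by its coefficients
with respect to the basis vectors `e_{s_0} ⊗ ⋯ ⊗ e_{s_{n-1}}`, indexed by the lists
`s = [s_0, …, s_{n-1}]`. -/
noncomputable def Elem.act (N : ℕ) (v : ℂ) : Elem → (List (Fin N) → ℂ) → List (Fin N) → ℂ
  | .cup i, f => fun s => match s.drop i with
      | a :: b :: r => AugmentedWeaves.cup N v (a, b) * f (s.take i ++ r)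
      | _ => 0
  | .cap i, f => fun s =>
      ∑ p : Fin N × Fin N, AugmentedWeaves.cap N v p * f (s.take i ++ p.1 :: p.2 :: s.drop i)
  | .twist i σ m, f => fun s => match s.drop i with
      | a :: b :: r => ∑ p : Fin N × Fin N,
          ((if σ then crossP N v else crossN N v) ^ m) (a, b) p * f (s.take i ++ p.1 :: p.2 :: r)
      | _ => 0

/-- The operator of a diagram in the plane, a list of elementary parts from bottom to top. -/
noncomputable def run (N : ℕ) (v : ℂ) (D : List Elem) (f : List (Fin N) → ℂ) :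
    List (Fin N) → ℂ := D.foldl (fun g P => P.act N v g) f

/-! ### Diagrams in the annulus -/

/-- The pieces of a diagram in the annulus around `B`; the strands are counted from `0`.
`twist i σ m` is a twist region of `m` crossings of the strands `i` and `i + 1`; `around true`: the
first strand moves around `B` and becomes the last one; `around false` is the inverse. -/
inductive Piece
  | cup (i : ℕ)
  | cap (i : ℕ)
  | twist (i : ℕ) (σ : Bool) (m : ℕ)
  | around (b : Bool)

/-- The number of strands above a piece that has `n` strands below it. -/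
def Piece.above : Piece → ℕ → Option ℕ
  | .cup i, n => if i ≤ n then some (n + 2) else none
  | .cap i, n => if i + 2 ≤ n then some (n - 2) else none
  | .twist i _ _, n => if i + 2 ≤ n then some n else none
  | .around _, n => if 1 ≤ n then some n else none

/-- `D` (the list of its pieces from bottom to top) is a diagram in the annulus with `n` strands at
the bottom and `n` strands at the top. -/
def Closed (n : ℕ) (D : List Piece) : Prop :=
  D.foldl (fun k P => k.bind P.above) (some n) = some n

/-- The rotation of `p` strands around strand `0` (bottom to top): two crossings of the strands `0`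
and `1`, and then the strand `1` moves to the last place. -/
def rotation (p : ℕ) : List Elem :=
  .twist 0 false 1 :: (List.range p).map fun k => .twist k false 1

/-- The inverse of the rotation. -/
def rotationInv (p : ℕ) : List Elem :=
  ((List.range p).reverse.map fun k => .twist k true 1) ++ [.twist 0 true 1]

/-- The piece in the plane, with `B` as strand `0`; `p` is the number of the other strands below. -/
def Piece.elems : Piece → ℕ → List Elem
  | .cup i, _ => [.cup (i + 1)]
  | .cap i, _ => [.cap (i + 1)]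
  | .twist i σ m, _ => [.twist (i + 1) σ m]
  | .around true, p => rotation p
  | .around false, p => rotationInv p

/-- The diagram in the plane of a diagram in the annulus with `p` strands at the bottom. -/
def planar : ℕ → List Piece → List Elem
  | _, [] => []
  | p, P :: D => P.elems p ++ planar ((P.above p).getD 0) D

/-- One more strand on the left. -/
def Elem.shift : Elem → Elem
  | .cup i => .cup (i + 1)
  | .cap i => .cap (i + 1)
  | .twist i σ m => .twist (i + 1) σ m

/-- The axis: strand `0` runs once around the strands `1, …, k`. -/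
def axis (k : ℕ) : List Elem :=
  ((List.range k).map fun j => .twist j true 1) ++
    ((List.range k).reverse.map fun j => .twist j true 1)

/-- The diagram of `A ∪ B ∪ L` on `n + 2` strands: `A` is strand `0`, `B` is strand `1`. -/
def link (n : ℕ) (D : List Piece) : List Elem := (planar n D).map Elem.shift ++ axis (n + 1)

/-- The `N`-coloured Jones polynomial of `A ∪ B ∪ L` (unknot `= 1`; all components coloured `N`) at
`q = v^2`, up to sign and powers of `v`: the entry at the highest weight vector `e_0` of the quantum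
trace over the strands `1, …, n + 1`, with the weights `v^{N-1-2x}`. -/
noncomputable def jones (N n : ℕ) (D : List Piece) (v : ℂ) : ℂ :=
  if h : 0 < N then ∑ s : Fin (n + 1) → Fin N, (∏ x, v ^ ((N : ℤ) - 1 - 2 * (s x : ℕ))) *
    run N v (link n D) (fun l => if l = ⟨0, h⟩ :: List.ofFn s then 1 else 0)
      (⟨0, h⟩ :: List.ofFn s)
  else 0

/-- `v_N = exp (π i / N)`, so that `q = v_N^2 = exp (2 π i / N)`. -/
noncomputable def root (N : ℕ) : ℂ := Complex.exp (Real.pi * Complex.I / N)

/-- The Kashaev invariant of `A ∪ B ∪ L` (up to a factor of absolute value `1`). -/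
noncomputable def kashaev (n : ℕ) (D : List Piece) (N : ℕ) : ℂ := jones N n D (root N)

/-! ### The constants -/

/-- Lobachevsky's function `Λ(x) = -∫_0^x log |2 sin t| dt`. -/
noncomputable def Lob (x : ℝ) : ℝ := -∫ t in (0 : ℝ)..x, Real.log |2 * Real.sin t|

/-- the volume `1.01494…` of the regular ideal tetrahedron -/
noncomputable def v3 : ℝ := 3 * Lob (Real.pi / 3)

/-! ### The fully augmented square weaves -/

/-- A circle around the strands `i`, `i + 1`. -/
def circle (i : ℕ) : List Piece :=
  [.cup (i + 2), .twist (i + 1) true 1, .twist i true 1, .twist i true 1, .twist (i + 1) true 1,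
    .cap (i + 2)]

/-- An encircled twist region: a circle around the strands `i`, `i + 1`, and `m` crossings of these
strands. -/
def region (i : ℕ) (σ : Bool) (m : ℕ) : List Piece := circle i ++ [.twist i σ m]

/-- A row of `s + 1` encircled twist regions, on the strands `(0, 1)`, `(2, 3)`, …,
`(2 s, 2 s + 1)`. -/
def row (s : ℕ) (σ : Fin (s + 1) → Bool) (m : Fin (s + 1) → ℕ) : List Piece :=
  (List.ofFn fun k : Fin (s + 1) => region (2 * (k : ℕ)) (σ k) (m k)).flatten

/-- The fully augmented square weave with `l + 1` rows of `s + 1` encircled twist regions, on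
`2 s + 2` strands: `2 r` rotations, and then `l + 1` times an inverse rotation and a row. -/
def weave (s l r : ℕ) (σ : Fin (l + 1) → Fin (s + 1) → Bool)
    (m : Fin (l + 1) → Fin (s + 1) → ℕ) : List Piece :=
  List.replicate (2 * r) (.around true) ++
    (List.ofFn fun j => .around false :: row s (σ j) (m j)).flatten

/-- `10 v_3` for each circle -/
noncomputable def vol (s l : ℕ) : ℝ := 10 * v3 * ((s + 1) * (l + 1))

/-! ### Checks of the definitions (not part of the result) -/

/-- the elementary parts of the library -/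
def toQ : Elem → Pool.Agent.W709.QAT.Piece
  | .cup i => .cup i
  | .cap i => .cap i
  | .twist i σ m => .twist i σ m

/-- For `N = 2` the crossings satisfy the skein relation of the Jones polynomial. -/
theorem skein (v : ℂ) (hv : v ≠ 0) (h1 : br v 1 ≠ 0) :
    v ^ 2 • crossP 2 v - (v ^ 2)⁻¹ • crossN 2 v =
      (v - v⁻¹) • (1 : Matrix (Fin 2 × Fin 2) (Fin 2 × Fin 2) ℂ) :=
  Pool.Agent.H550R3.Jones.taskSanSkein v hv h1

/-- The two crossings are inverse to each other. -/
theorem cross_inverse (N : ℕ) (v : ℂ) (hv : v ≠ 0)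
    (h : ∀ k : ℕ, 0 < k → k < N → br v k ≠ 0) :
    crossP N v * crossN N v = 1 ∧ crossN N v * crossP N v = 1 :=
  Pool.Agent.H309R4.Jones.SanI.taskSanInv Pool.Agent.H345J.taskMod Pool.Agent.H345J.taskInv
    Pool.Agent.H559R3.J.taskCross N v ⟨hv, h⟩

/-- Curls may be removed: the framing is normalised. -/
theorem curl (N : ℕ) (v : ℂ) (hv : v ≠ 0) (h : ∀ k : ℕ, 0 < k → k < N → br v k ≠ 0) :
    (fun i j => ∑ x : Fin N, v ^ ((N : ℤ) - 1 - 2 * (x : ℕ)) * crossP N v (i, x) (j, x)) =
      (1 : Matrix (Fin N) (Fin N) ℂ) ∧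
    (fun i j => ∑ x : Fin N, v ^ ((N : ℤ) - 1 - 2 * (x : ℕ)) * crossN N v (i, x) (j, x)) =
      (1 : Matrix (Fin N) (Fin N) ℂ) :=
  Pool.Agent.H105R3.JSan.taskSanCurl N v ⟨hv, h⟩

lemma act_eq {N : ℕ} {v : ℂ} : ∀ (P : Elem) (f : List (Fin N) → ℂ), P.act N v f =
    Pool.Agent.W709.QAT.Piece.act N v (toQ P) f
  | .cup _, _ => rfl
  | .cap _, _ => rfl
  | .twist _ _ _, _ => rfl

lemma run_eq {N : ℕ} {v : ℂ} : ∀ (D : List Elem) (f : List (Fin N) → ℂ), run N v D f =
    Pool.Agent.W709.QAT.run N v (D.map toQ) f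
  | [], _ => rfl
  | P :: D, f => by
    show run N v D (P.act N v f) = Pool.Agent.W709.QAT.run N v (D.map toQ) _
    rw [run_eq D, act_eq]

/-- Straightening a strand. -/
theorem zigzag (N : ℕ) (v : ℂ) (hv : v ≠ 0) (h : ∀ k : ℕ, 0 < k → k < N → br v k ≠ 0)
    (f : List (Fin N) → ℂ) (i : ℕ) (s : List (Fin N)) (hi : i < s.length) :
    run N v [.cup (i + 1), .cap i] f s = f s ∧ run N v [.cup i, .cap (i + 1)] f s = f s := by
  rw [run_eq, run_eq]
  exact Pool.Agent.W591.QAT.zz N v hv h f i s hi

/-- The third Reidemeister move. -/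
theorem reidemeister (N : ℕ) (v : ℂ) (hv : v ≠ 0) (h : ∀ k : ℕ, 0 < k → k < N → br v k ≠ 0)
    (f : List (Fin N) → ℂ) (i : ℕ) (s : List (Fin N)) (hi : i + 3 ≤ s.length) :
    run N v [.twist i true 1, .twist (i + 1) true 1, .twist i true 1] f s =
      run N v [.twist (i + 1) true 1, .twist i true 1, .twist (i + 1) true 1] f s := by
  rw [run_eq, run_eq]
  exact (Pool.Agent.W591.QAT.reid N v hv h f i s).2 hi

/-! ### The rotations -/

open Pool.Agent.Q191.TW (rotW winv axisW)
open Pool.Agent.Q191.TB (wp)

lemma rotation_eq (p : ℕ) : (rotation p).map toQ = Pool.Agent.Q191.TB.wp (rotW p) := by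
  unfold rotation Pool.Agent.Q191.TB.wp rotW
  rw [List.reverse_append, List.map_append, ← List.map_reverse, List.reverse_reverse,
    List.map_map]
  simp only [List.map_cons, List.map_map, List.reverse_cons, List.reverse_nil, List.nil_append,
    List.map_nil, List.singleton_append]
  rfl

lemma rotationInv_eq (p : ℕ) :
    (rotationInv p).map toQ = Pool.Agent.Q191.TB.wp (winv (rotW p)) := by
  unfold rotationInv Pool.Agent.Q191.TB.wp winv rotW
  rw [List.reverse_reverse, List.map_append, List.map_append, List.map_append, List.map_map,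
    List.map_map, List.map_map]
  rfl

/-! ### The value of the closure -/

lemma shift_act {N : ℕ} {v : ℂ} (P : Elem) (f : List (Fin N) → ℂ) (a : Fin N)
    (r : List (Fin N)) : P.shift.act N v f (a :: r) = P.act N v (fun r' => f (a :: r')) r := by
  cases P <;> rfl

lemma shift_run {N : ℕ} {v : ℂ} : ∀ (D : List Elem) (f : List (Fin N) → ℂ) (a : Fin N)
    (r : List (Fin N)), run N v (D.map Elem.shift) f (a :: r) =
      run N v D (fun r' => f (a :: r')) r
  | [], _, _, _ => rfl
  | P :: D, f, a, r => by
    show run N v (D.map Elem.shift) (P.shift.act N v f) (a :: r) =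
      run N v D (P.act N v fun r' => f (a :: r')) r
    rw [shift_run D]
    congr 1
    funext r'
    exact shift_act P f a r'

lemma axis_eq (k : ℕ) : (axis k).map toQ = Pool.Agent.Q191.TB.wp (axisW k) := by
  unfold axis Pool.Agent.Q191.TB.wp axisW
  rw [Pool.Agent.Q191.TW.axU_eq, Pool.Agent.Q191.TW.axD_eq, List.reverse_append,
    ← List.map_reverse, ← List.map_reverse, List.reverse_reverse, List.map_append, List.map_append,
    List.map_map, List.map_map, List.map_map, List.map_map]
  rfl

lemma run_append {N : ℕ} {v : ℂ} (D D' : List Elem) (f : List (Fin N) → ℂ) :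
    run N v (D ++ D') f = run N v D' (run N v D f) := by
  simp [run]

lemma root_eq (N : ℕ) : root N = Pool.Agent.W715.VC.rt N := rfl

lemma run_loc {N k : ℕ} (f g : List (Fin N) → ℂ) (l : List (Fin N)) (hl : l.length = k + 1)
    (h : ∀ l' : List (Fin N), l'.length = k + 1 → f l' = g l') :
    run N (root N) (axis k) f l =
      Pool.Agent.W709.QAT.run N (Pool.Agent.W715.VC.rt N) (Pool.Agent.Q191.TB.wp (axisW k)) g l :=
  by
  rw [run_eq, axis_eq, root_eq]
  exact (Pool.Agent.Q191.TB.Gd_wp (p := k + 1)
    fun g hg => Pool.Agent.Q191.TB.axisW_mem hg).loc f g l hl fun l' hl' _ => h l' hl'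

/-- the value of the closure -/
lemma jones_eq {N : ℕ} (h : 0 < N) (n : ℕ) (D : List Piece) : kashaev n D N =
    ∑ s : Fin (n + 1) → Fin N,
      (∏ x, Pool.Agent.W715.VC.rt N ^ ((N : ℤ) - 1 - 2 * (s x : ℕ))) *
      Pool.Agent.W709.QAT.run N (Pool.Agent.W715.VC.rt N)
        (Pool.Agent.Q191.TB.wp (axisW (n + 1)))
        (Pool.Agent.Q191.TB.sh1 (Pool.Agent.W709.QAT.run N (Pool.Agent.W715.VC.rt N)
          ((planar n D).map toQ)) (Pool.Agent.Q191.TW.dl (⟨0, h⟩ :: List.ofFn s)))
        (⟨0, h⟩ :: List.ofFn s) := by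
  unfold kashaev jones
  rw [dif_pos h]
  refine Finset.sum_congr rfl fun s _ => ?_
  have hl : ((⟨0, h⟩ : Fin N) :: List.ofFn s).length = n + 1 + 1 := by simp
  unfold link
  rw [run_append, run_loc (k := n + 1) _ _ _ hl fun l' hl' => ?_]
  · rfl
  · obtain ⟨a, r, rfl⟩ := List.exists_cons_of_length_eq_add_one hl'
    rw [shift_run, run_eq]
    rfl

/-- The Hopf link `A ∪ B`: its Kashaev invariant has the absolute value `N`. -/
theorem hopf (N : ℕ) (hN : 0 < N) : ‖kashaev 0 [] N‖ = N := by
  rw [jones_eq hN]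
  show ‖∑ s : Fin 1 → Fin N, (∏ x, Pool.Agent.W715.VC.rt N ^ ((N : ℤ) - 1 - 2 * (s x : ℕ))) *
      Pool.Agent.W709.QAT.run N (Pool.Agent.W715.VC.rt N)
        (Pool.Agent.Q191.TB.wp (axisW 1))
        (Pool.Agent.Q191.TB.sh1 (fun f => f) (Pool.Agent.Q191.TW.dl (⟨0, hN⟩ :: List.ofFn s)))
        (⟨0, hN⟩ :: List.ofFn s)‖ = N
  rw [Pool.Agent.Q191.TB.axis_val 1 (Pool.Agent.Q191.TB.Gd_id 1) ⟨0, hN⟩ rfl, norm_mul,
    Pool.Agent.W715.VC.norm_rt_zpow, one_mul]
  have h1 : (Pool.Agent.Q191.TB.mg 1 1 (fun f : List (Fin N) → ℂ => f)).trace = N := by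
    rw [Matrix.trace]
    have h2 : ∀ s : Fin 1 → Fin N,
        (Pool.Agent.Q191.TB.mg 1 1 (fun f : List (Fin N) → ℂ => f)).diag s = 1 := by
      intro s
      show Pool.Agent.Q191.TW.dl (List.ofFn s) (List.ofFn s) = 1
      rw [Pool.Agent.Q191.TW.dl, if_pos rfl]
    rw [Finset.sum_congr rfl fun s _ => h2 s, Finset.sum_const, Finset.card_univ,
      Fintype.card_fun, Fintype.card_fin, Fintype.card_fin, pow_one, nsmul_eq_mul, mul_one]
  rw [h1, Complex.norm_natCast]

/-! ### Continuity -/

theorem jones_cont (n : ℕ) (D : List Piece) (N : ℕ) (hN1 : 1 ≤ N) :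
    ContinuousAt (jones N n D) (root N) := by
  have hN : 0 < N := hN1
  have h : jones N n D = fun v => ∑ s : Fin (n + 1) → Fin N,
      (∏ x, v ^ ((N : ℤ) - 1 - 2 * (s x : ℕ))) *
      Pool.Agent.W709.QAT.run N v ((link n D).map toQ)
        (fun l => if l = ⟨0, hN⟩ :: List.ofFn s then 1 else 0) (⟨0, hN⟩ :: List.ofFn s) := by
    funext v
    unfold jones
    rw [dif_pos hN]
    exact Finset.sum_congr rfl fun s _ => by rw [run_eq]
  rw [h]
  have h0 : root N ≠ 0 := Complex.exp_ne_zero _
  refine tendsto_finsetSum _ fun s _ => ContinuousAt.mul ?_ ?_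
  · exact tendsto_finsetProd _ fun x _ => Pool.Agent.H756R3.J.zpow_cont h0 _
  · exact Pool.Agent.W613.QAT.run_cont h0 (fun k hk hkN => Pool.Agent.W613.QAT.br_rt k hk hkN) hN1
      _ (fun _ l => if l = ⟨0, hN⟩ :: List.ofFn s then 1 else 0) (fun s => continuousAt_const) _


/-! ### The word of the weave -/

/-- the number of strands above a diagram -/
def aft (p : ℕ) (D : List Piece) : ℕ := D.foldl (fun k P => (P.above k).getD 0) p

lemma planar_app : ∀ (D D' : List Piece) (p : ℕ),
    planar p (D ++ D') = planar p D ++ planar (aft p D) D'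
  | [], _, _ => rfl
  | P :: D, D', p => by
    show P.elems p ++ planar ((P.above p).getD 0) (D ++ D') =
      P.elems p ++ planar ((P.above p).getD 0) D ++ planar (aft ((P.above p).getD 0) D) D'
    rw [planar_app D D', List.append_assoc]

lemma aft_app (p : ℕ) (D D' : List Piece) : aft p (D ++ D') = aft (aft p D) D' := by
  unfold aft
  rw [List.foldl_append]

/-- the diagram is closed, and its word is given -/
def Good (p : ℕ) (D : List Piece) (W : List Pool.Agent.W709.QAT.Piece) : Prop :=
  (planar p D).map toQ = W ∧ aft p D = p ∧ Closed p D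

lemma Good.app {p : ℕ} {D D' : List Piece} {W W' : List Pool.Agent.W709.QAT.Piece}
    (h : Good p D W) (h' : Good p D' W') : Good p (D ++ D') (W ++ W') := by
  refine ⟨?_, ?_, ?_⟩
  · rw [planar_app, List.map_append, h.1, h.2.1, h'.1]
  · rw [aft_app, h.2.1, h'.2.1]
  · unfold Closed
    have h1 := h.2.2
    have h2 := h'.2.2
    unfold Closed at h1 h2
    rw [List.foldl_append, h1, h2]

lemma Good_nil (p : ℕ) : Good p [] [] := ⟨rfl, rfl, rfl⟩

lemma Good_rep {p : ℕ} {P : Piece} {W : List Pool.Agent.W709.QAT.Piece} (h : Good p [P] W) :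
    ∀ n : ℕ, Good p (List.replicate n P) (List.replicate n W).flatten
  | 0 => Good_nil p
  | n + 1 => h.app (Good_rep h n)

lemma Good_ofFn {p : ℕ} : ∀ (n : ℕ) (D : Fin n → List Piece)
    (W : Fin n → List Pool.Agent.W709.QAT.Piece), (∀ j, Good p (D j) (W j)) →
    Good p (List.ofFn D).flatten (List.ofFn W).flatten
  | 0, D, W, _ => Good_nil p
  | n + 1, D, W, h => by
    rw [List.ofFn_succ, List.ofFn_succ, List.flatten_cons, List.flatten_cons]
    exact (h 0).app (Good_ofFn n _ _ fun j => h j.succ)

lemma Good_true (p : ℕ) : Good (p + 1) [.around true] (wp (rotW (p + 1))) := by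
  refine ⟨?_, ?_, ?_⟩
  · show (rotation (p + 1) ++ []).map toQ = _
    rw [List.append_nil, rotation_eq]
  · simp [aft, Piece.above]
  · simp [Closed, Piece.above]

lemma Good_false (p : ℕ) : Good (p + 1) [.around false] (wp (winv (rotW (p + 1)))) := by
  refine ⟨?_, ?_, ?_⟩
  · show (rotationInv (p + 1) ++ []).map toQ = _
    rw [List.append_nil, rotationInv_eq]
  · simp [aft, Piece.above]
  · simp [Closed, Piece.above]

lemma Good_region {p i : ℕ} (h : i + 2 ≤ p) (σ : Bool) (m : ℕ) :
    Good p (region i σ m) ((Pool.Agent.Q191.SH.aw i σ m 1).map Pool.Agent.Q99.FW.shQ) := by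
  have h1 : i + 2 + 2 ≤ p + 2 := by omega
  have h2 : i + 1 + 2 ≤ p + 2 := by omega
  have h3 : i + 2 ≤ p + 2 := by omega
  refine ⟨?_, ?_, ?_⟩
  · simp only [region, circle, List.cons_append, List.nil_append, planar, Piece.elems]
    rfl
  · simp only [region, circle, List.cons_append, List.nil_append, aft, List.foldl_cons,
      List.foldl_nil, Piece.above, if_pos h, if_pos h1, if_pos h2, if_pos h3, Option.getD_some,
      Nat.add_sub_cancel]
  · simp only [region, circle, List.cons_append, List.nil_append, Closed, List.foldl_cons,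
      List.foldl_nil, Piece.above, Option.bind_some, if_pos h, if_pos h1, if_pos h2, if_pos h3,
      Nat.add_sub_cancel]

lemma lw_eq : ∀ (n : ℕ) (σ : Fin n → Bool) (m : Fin n → ℕ), Pool.Agent.Q99.FW.lw n σ m =
    (List.ofFn fun k : Fin n => Pool.Agent.Q191.SH.aw (2 * (k : ℕ)) (σ k) (m k) 1).flatten
  | 0, _, _ => rfl
  | n + 1, σ, m => by
    rw [Pool.Agent.Q99.FW.lw, lw_eq n, List.ofFn_succ, List.flatten_cons, List.map_flatten,
      List.map_flatten, List.map_ofFn, List.map_ofFn]
    rfl

lemma Good_row (s : ℕ) (σ : Fin (s + 1) → Bool) (m : Fin (s + 1) → ℕ) :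
    Good (2 * s + 1 + 1) (row s σ m)
      ((Pool.Agent.Q99.FW.lw (s + 1) σ m).map Pool.Agent.Q99.FW.shQ) := by
  rw [lw_eq, List.map_flatten, List.map_ofFn]
  refine Good_ofFn _ _ _ fun k => Good_region ?_ _ _
  have := k.2
  omega

lemma Good_weave (s l r : ℕ) (σ : Fin (l + 1) → Fin (s + 1) → Bool)
    (m : Fin (l + 1) → Fin (s + 1) → ℕ) :
    Good (2 * s + 1 + 1) (weave s l r σ m) (Pool.Agent.Q99.FW.wv s l r σ m) :=
  (Good_rep (Good_true (2 * s + 1)) (2 * r)).app
    (Good_ofFn _ _ _ fun j => (Good_false (2 * s + 1)).app (Good_row s (σ j) (m j)))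

/-- the Kashaev invariant of the weave -/
lemma kashaev_weave {N : ℕ} (h : 0 < N) (s l r : ℕ) (σ : Fin (l + 1) → Fin (s + 1) → Bool)
    (m : Fin (l + 1) → Fin (s + 1) → ℕ) : kashaev (2 * s + 2) (weave s l r σ m) N =
      Pool.Agent.W715.VC.rt N ^ (-((2 * s + 1 + 1 + 1 : ℕ) : ℤ) * ((N : ℤ) - 1)) *
        (N * (Pool.Agent.Q99.FW.HH s l r fun j k =>
          Pool.Agent.Q99.FW.Xm N (σ j.rev k) (m j.rev k)).trace) := by
  have hG := Pool.Agent.Q99.FW.GH_wv (N := N) s l r σ m
  rw [← Pool.Agent.Q191.TB.trace_hatG h hG.1 hG.2,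
    ← Pool.Agent.Q191.TB.axis_val (2 * s + 1 + 1 + 1) hG.1 ⟨0, h⟩ rfl]
  have h1 := jones_eq h (2 * s + 2) (weave s l r σ m)
  rw [(Good_weave s l r σ m).1] at h1
  exact h1


lemma lob_eq (x : ℝ) : Lob x = GapVol.lob x := rfl

lemma vol_eq (s l N : ℕ) : (N : ℝ) * (vol s l / (2 * Real.pi)) =
    6 * (N * Pool.Agent.Q99.FW.V0) * ((l + 1) * (s + 1) : ℕ) := by
  have hpi := Real.pi_pos
  have h1 := Pool.Agent.Q151.FW.lob_LL (1 / 6)
  have h2 := Pool.Agent.Q151.FW.lob_LL (1 / 3)
  have h3 := Pool.Agent.Q191.SH.phi_three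
  unfold Pool.Agent.Q191.SH.phi at h3
  have e1 : Real.pi * (1 / 6) = Real.pi / 6 := by ring
  have e2 : Real.pi * (1 / 3) = Real.pi / 3 := by ring
  have e3 : Real.pi / 2 - Real.pi / 3 = Real.pi / 6 := by ring
  rw [e1] at h1
  rw [e2] at h2
  rw [e3] at h3
  unfold vol v3 Pool.Agent.Q99.FW.V0
  rw [lob_eq]
  have h4 : 6 * -(Pool.Agent.W719.BS.LL (1 / 6) + Pool.Agent.W719.BS.LL (1 / 3)) * (2 * Real.pi) =
      10 * (3 * GapVol.lob (Real.pi / 3)) := by
    linear_combination (-12) * h1 - 12 * h2 - 3 * h3
  have h5 : 10 * (3 * GapVol.lob (Real.pi / 3)) / (2 * Real.pi) =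
      6 * -(Pool.Agent.W719.BS.LL (1 / 6) + Pool.Agent.W719.BS.LL (1 / 3)) := by
    rw [← h4]
    field_simp
  push_cast
  linear_combination ((N : ℝ) * (s + 1) * (l + 1)) * h5

/-- **The volume conjecture for the fully augmented square weaves.** -/
theorem result (s l r : ℕ) (σ : Fin (l + 1) → Fin (s + 1) → Bool)
    (m : Fin (l + 1) → Fin (s + 1) → ℕ) :
    Closed (2 * s + 2) (weave s l r σ m) ∧
    (∀ N : ℕ, 1 ≤ N → ContinuousAt (jones N (2 * s + 2) (weave s l r σ m)) (root N)) ∧
    Tendsto (fun N : ℕ => 2 * Real.pi *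
      (Real.log ‖kashaev (2 * s + 2) (weave s l r σ m) N‖ / N)) atTop (𝓝 (vol s l)) ∧
    ∃ c : ℝ, 0 < c ∧ Tendsto (fun N : ℕ => ‖kashaev (2 * s + 2) (weave s l r σ m) N‖ /
      (N * √N * Real.exp (N * (vol s l / (2 * Real.pi))))) atTop (𝓝 c) := by
  obtain ⟨L, hL, h⟩ := Pool.Agent.Q99.FW.tr_asym s l r (fun j k => σ j.rev k) (fun j k => m j.rev k)
  have h1 : Tendsto (fun N : ℕ => ‖kashaev (2 * s + 2) (weave s l r σ m) N‖ /
      (N * √N * Real.exp (N * (vol s l / (2 * Real.pi))))) atTop (𝓝 L) := by
    refine h.congr' ?_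
    filter_upwards [eventually_ge_atTop 1] with N hN
    have hN0 : 0 < N := hN
    have hNr : (N : ℝ) ≠ 0 := by exact_mod_cast hN0.ne'
    rw [kashaev_weave hN0, norm_mul, Pool.Agent.W715.VC.norm_rt_zpow, one_mul, norm_mul,
      Complex.norm_natCast, vol_eq, mul_assoc (N : ℝ) (√(N : ℝ)), mul_div_mul_left _ _ hNr]
  refine ⟨(Good_weave s l r σ m).2.2, fun N hN => jones_cont _ _ N hN, ?_, L, hL, h1⟩
  have h2 : Tendsto (fun N : ℕ => ((‖kashaev (2 * s + 2) (weave s l r σ m) N‖ : ℝ) : ℂ) /
      (Pool.Agent.Q191.TW.grw (vol s l) N : ℂ)) atTop (𝓝 (L : ℂ)) := by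
    have h3 := (Complex.continuous_ofReal.tendsto L).comp h1
    refine h3.congr fun N => ?_
    simp only [Function.comp, Complex.ofReal_div]
    rfl
  have h4 := Pool.Agent.Q191.TW.log_of_asym (by exact_mod_cast hL.ne') h2
  simpa only [Complex.norm_real, norm_norm] using h4

end Pool.Agent.Q99.Old.AugmentedWeaves
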